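import Pool.Agent.MP_dd175f_co.Tri.Main
import Pool.Agent.MP_dd175f_co.Pair.Final

/-! The two runs, one for each colour, with the profile `θ j = √(l / (j + D))`. -/

set_option autoImplicit false

namespace Pool.Agent.MP_dd175f_co.Tri

open Finset Pool.Agent.MP_dd175f_co.Pair

variable {V : Type} [Fintype V]

lemma core {W : V → V → ℝ} (hs : ∀ a b, W a b = W b a) (h1 : ∀ a b, |W a b| = 1) {k N : ℕ}
    (hk : 2 ≤ k) (hN : 0 < N) (hV : k * N ≤ Fintype.card V) {e : ℝ} (he : 0 < e)
    (he1 : 162 * e ≤ 1) (hw : NoWin W k e) {l D s v : ℝ} (s0 : 0 ≤ s) (s1 : s ≤ 1) (l0 : 0 ≤ l)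
    (D0 : 0 < D) (θ1 : √(l / D) ≤ v) (hv : v ≤ 1 / 8) :
    (1 - 2 * (81 * e) ^ 2) * √l * (2 / 3 * k * √(k : ℝ) - √(k : ℝ) - k * √D) ≤
      e * prs k + 136 * (k : ℝ) ^ 6 / e ^ 3 *
        Real.exp (s * (l * ((1 / 2 + 16 * v + 6 * s) * (1 + 3 * (81 * e))) - Real.log N)) +
      k * (k * (k * (6 * v ^ 2 * (81 * e) ^ 2 +
        k * (v ^ 2 * (99 * v ^ 2 * (81 * e) ^ 2 + 64 * v ^ 3 * (81 * e)))))) := by
  classical
  have k2 : (2 : ℝ) ≤ k := by exact_mod_cast hk
  have N0 : (0 : ℝ) < N := by exact_mod_cast hN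
  have hp : 0 < prs k := by
    unfold prs
    nlinarith
  have v0 : 0 ≤ v := le_trans (by positivity) θ1
  obtain ⟨ι⟩ : Nonempty (Fin k × Fin N ↪ V) :=
    Function.Embedding.nonempty_of_card_le (by simpa using hV)
  set S : ℕ → Finset V := fun j =>
    univ.image fun a : Fin N => ι (⟨j % k, Nat.mod_lt _ (by omega)⟩, a) with hS
  have T1 : ∀ j, (S j).card = N := fun j => by
    rw [hS, card_image_of_injective _ fun a b h => (Prod.ext_iff.1 (ι.injective h)).2]
    simp
  have T2 : ∀ j < k, ∀ i < j, ∀ a ∈ S i, ∀ b ∈ S j, a ≠ b := by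
    intro j hj i hi a ha b hb hab
    obtain ⟨a', -, rfl⟩ := mem_image.1 ha
    obtain ⟨b', -, rfl⟩ := mem_image.1 hb
    have := congrArg Fin.val (Prod.ext_iff.1 (ι.injective hab)).1
    simp only [Nat.mod_eq_of_lt hj, Nat.mod_eq_of_lt (hi.trans hj)] at this
    omega
  set Q : ℕ → V → ℝ := fun j z => if z ∈ S j then (N : ℝ)⁻¹ else 0 with hQ
  have Q1 : ∀ j, IsProb (Q j) := fun j => by
    refine ⟨fun z => by simp only [hQ]; positivity, ?_⟩
    simp only [hQ]
    rw [sum_ite_mem, univ_inter, sum_const, T1, nsmul_eq_mul, mul_inv_cancel₀ N0.ne']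
  have Q2 : ∀ j z, Q j z ≠ 0 → z ∈ S j := fun j z h => by
    by_contra h'
    exact h (if_neg h')
  have Q3 : ∀ j, Psi s (Q j) = Real.exp (-(s * Real.log N)) := fun j => by
    have : ∀ z, Q j z ^ (1 + s) = if z ∈ S j then (N : ℝ)⁻¹ ^ (1 + s) else 0 := fun z => by
      simp only [hQ]
      split_ifs
      · rfl
      · exact Real.zero_rpow (by linarith)
    unfold Psi
    simp only [this]
    rw [sum_ite_mem, univ_inter, sum_const, T1, nsmul_eq_mul, Real.rpow_add (by positivity),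
      Real.rpow_one, ← mul_assoc, mul_inv_cancel₀ N0.ne', one_mul,
      Real.rpow_def_of_pos (by positivity), Real.log_inv]
    congr 1
    ring
  set θ : ℕ → ℝ := fun j => √(l / (j + D)) with hθ
  set A : ℝ := (1 / 2 + 16 * v + 6 * s) * (1 + 3 * (81 * e)) with hA
  have A0 : 0 ≤ A := by positivity
  have θ2 : ∀ j, 0 ≤ θ j ∧ θ j ≤ v := fun j => by
    refine ⟨Real.sqrt_nonneg _, le_trans (Real.sqrt_le_sqrt ?_) θ1⟩
    exact div_le_div_of_nonneg_left l0 D0 (by linarith [Nat.cast_nonneg (α := ℝ) j])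
  have hw' : NoWin (fun a b => -W a b) k e := fun x hx => by
    simpa only [sum_neg_distrib, abs_neg] using hw x hx
  obtain ⟨x, hx, hm⟩ := rounds (W := W) (fun μ h => Psi_nonneg s h) (by positivity)
    (by positivity) (by positivity) (by positivity)
    (step hs h1 hk he (by linarith) hw s0 s1 hv) k k le_rfl θ θ2 Q Q1 fun _ => 0
  obtain ⟨y, hy, hm'⟩ := rounds (W := fun a b => -W a b) (fun μ h => Psi_nonneg s h)
    (by positivity) (by positivity) (by positivity) (by positivity)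
    (step (fun a b => by rw [hs]) (fun a b => by rw [abs_neg, h1]) hk he (by linarith) hw' s0 s1 hv)
    k k le_rfl θ θ2 Q Q1 fun _ => 0
  have w1 := (abs_le.1 (hw x fun j hj i hi =>
    T2 j hj i hi _ (Q2 _ _ (hx i (hi.trans hj))) _ (Q2 _ _ (hx j hj)))).2
  have w2 := (abs_le.1 (hw' y fun j hj i hi =>
    T2 j hj i hi _ (Q2 _ _ (hy i (hi.trans hj))) _ (Q2 _ _ (hy j hj)))).2
  simp only [term, odd_neg, E_const (Q1 _), zero_add, sum_add_distrib, sum_sub_distrib,
    ← hA] at hm hm'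
  rw [sum_neg_distrib] at hm'
  have c0 : 0 ≤ 1 - 2 * (81 * e) ^ 2 := by nlinarith
  have g1 : (1 - 2 * (81 * e) ^ 2) * √l * (2 / 3 * k * √(k : ℝ) - √(k : ℝ) - k * √D) ≤
      ∑ j ∈ range k, (j : ℝ) * (θ j * (1 - 2 * (81 * e) ^ 2)) := by
    calc _ ≤ (1 - 2 * (81 * e) ^ 2) * √l * (∑ j ∈ range k, √(j : ℝ) - k * √D) :=
          mul_le_mul_of_nonneg_left (by linarith [sum_sqrt k]) (by positivity)
      _ = ∑ j ∈ range k, (1 - 2 * (81 * e) ^ 2) * (√l * (√(j : ℝ) - √D)) := by
          rw [← mul_sum, ← mul_sum, sum_sub_distrib, sum_const, card_range, nsmul_eq_mul]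
          ring
      _ ≤ _ := sum_le_sum fun j _ => by
          have := mul_le_mul_of_nonneg_left (mul_theta l0 D0 (Nat.cast_nonneg (α := ℝ) j)) c0
          simp only [hθ]
          linarith
  have g2 : ∑ j ∈ range k, (k : ℝ) ^ 2 / (e ^ 3 / (136 * prs k)) * (j + 1) *
      (1 + s * A * θ j ^ 2) ^ j * Psi s (Q j) ≤
      136 * (k : ℝ) ^ 6 / e ^ 3 * Real.exp (s * (l * A - Real.log N)) := by
    calc _ ≤ ∑ j ∈ range k, 136 * (k : ℝ) ^ 5 / e ^ 3 * Real.exp (s * (l * A - Real.log N)) := by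
          refine sum_le_sum fun j hj => ?_
          have j1 : (j : ℝ) + 1 ≤ k := by exact_mod_cast mem_range.1 hj
          have j0 : (0 : ℝ) ≤ j := Nat.cast_nonneg j
          have t1 : (k : ℝ) ^ 2 / (e ^ 3 / (136 * prs k)) * (j + 1) ≤ 136 * (k : ℝ) ^ 5 / e ^ 3 := by
            rw [div_div_eq_mul_div, div_mul_eq_mul_div]
            refine div_le_div_of_nonneg_right ?_ (by positivity)
            have : prs k ≤ (k : ℝ) ^ 2 := by
              unfold prs
              nlinarith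
            calc (k : ℝ) ^ 2 * (136 * prs k) * (j + 1) ≤ k ^ 2 * (136 * k ^ 2) * k := by gcongr
              _ = _ := by ring
          have t2 : (1 + s * A * θ j ^ 2) ^ j ≤ Real.exp (s * (l * A)) := by
            have t3 : θ j ^ 2 * j ≤ l := by
              simp only [hθ]
              rw [Real.sq_sqrt (by positivity), div_mul_eq_mul_div, div_le_iff₀ (by positivity)]
              nlinarith
            calc _ ≤ Real.exp (s * A * θ j ^ 2) ^ j := by
                  refine pow_le_pow_left₀ (by positivity) ?_ j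
                  linarith [Real.add_one_le_exp (s * A * θ j ^ 2)]
              _ = Real.exp (s * (θ j ^ 2 * j * A)) := by
                  rw [← Real.exp_nat_mul]
                  congr 1
                  ring
              _ ≤ _ := by gcongr
          rw [Q3, mul_sub, sub_eq_add_neg, Real.exp_add, ← mul_assoc (136 * (k : ℝ) ^ 5 / e ^ 3)]
          gcongr
      _ = _ := by
          rw [sum_const, card_range, nsmul_eq_mul]
          ring
  linarith

end Pool.Agent.MP_dd175f_co.Tri
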