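import Pool.Agent.MP_dd175f_co.Pair.Step

/-! Averages over pools, and the mean-square smallness of the colouring kernel. -/

set_option autoImplicit false

namespace Pool.Agent.MP_dd175f_co.Tri

open Finset Pool.Agent.MP_dd175f_co.Pair

variable {V : Type} [Fintype V]

/-- The average of `f` with weights `μ`. -/
def E (μ f : V → ℝ) : ℝ := ∑ a, μ a * f a

lemma E_add (μ f g : V → ℝ) : E μ (fun a => f a + g a) = E μ f + E μ g := by
  simp only [E, mul_add, sum_add_distrib]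

lemma E_sub (μ f g : V → ℝ) : E μ (fun a => f a - g a) = E μ f - E μ g := by
  simp only [E, mul_sub, sum_sub_distrib]

lemma E_mul (μ f : V → ℝ) (c : ℝ) : E μ (fun a => c * f a) = c * E μ f := by
  simp only [E, mul_sum]
  exact sum_congr rfl fun a _ => by ring

lemma E_mul' (μ f : V → ℝ) (c : ℝ) : E μ (fun a => f a * c) = E μ f * c := by
  simp only [E, sum_mul, mul_assoc]

lemma E_neg (μ f : V → ℝ) : E μ (fun a => -f a) = -E μ f := by
  simp only [E, mul_neg, sum_neg_distrib]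

lemma E_const {μ : V → ℝ} (h : IsProb μ) (c : ℝ) : E μ (fun _ => c) = c := by
  simp only [E, ← sum_mul, h.2, one_mul]

lemma E_sum {ι : Type} (μ : V → ℝ) (s : Finset ι) (f : ι → V → ℝ) :
    E μ (fun a => ∑ i ∈ s, f i a) = ∑ i ∈ s, E μ (f i) := by
  simp only [E, mul_sum]
  exact sum_comm

lemma E_comm (μ ν : V → ℝ) (f : V → V → ℝ) :
    E μ (fun a => E ν fun b => f a b) = E ν fun b => E μ fun a => f a b := by
  simp only [E, mul_sum]
  rw [sum_comm]
  exact sum_congr rfl fun a _ => sum_congr rfl fun b _ => by ring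

lemma E_congr (μ : V → ℝ) {f g : V → ℝ} (h : ∀ a, f a = g a) : E μ f = E μ g := by
  rw [funext h]

lemma E_mono {μ : V → ℝ} (h : IsProb μ) {f g : V → ℝ} (hfg : ∀ a, f a ≤ g a) : E μ f ≤ E μ g :=
  sum_le_sum fun a _ => mul_le_mul_of_nonneg_left (hfg a) (h.1 a)

lemma E_le {μ : V → ℝ} (h : IsProb μ) {f : V → ℝ} {c : ℝ} (hf : ∀ a, f a ≤ c) : E μ f ≤ c :=
  (E_mono h hf).trans_eq (E_const h c)

lemma le_E {μ : V → ℝ} (h : IsProb μ) {f : V → ℝ} {c : ℝ} (hf : ∀ a, c ≤ f a) : c ≤ E μ f :=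
  (E_const h c).symm.trans_le (E_mono h hf)

lemma abs_E_le {μ : V → ℝ} (h : IsProb μ) {f : V → ℝ} {c : ℝ} (hf : ∀ a, |f a| ≤ c) :
    |E μ f| ≤ c :=
  abs_le.2 ⟨le_E h fun a => (abs_le.1 (hf a)).1, E_le h fun a => (abs_le.1 (hf a)).2⟩

lemma E_tilt (μ u f : V → ℝ) : E (fun z => μ z * u z) f = E μ fun z => u z * f z := by
  simp only [E, mul_assoc]

lemma var_le {μ : V → ℝ} (h : IsProb μ) (f : V → ℝ) :
    E μ (fun a => (f a - E μ f) ^ 2) ≤ E μ fun a => f a ^ 2 := by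
  have : ∀ a, (f a - E μ f) ^ 2 = f a ^ 2 - 2 * E μ f * f a + E μ f ^ 2 := fun a => by ring
  simp only [this]
  rw [E_add, E_sub, E_mul, E_const h]
  nlinarith [sq_nonneg (E μ f)]

/-- A product of two mean-square small functions and a bounded kernel. -/
lemma prod_ge {μ ν : V → ℝ} (hμ : IsProb μ) (hν : IsProb ν) {f g : V → ℝ} {k : V → V → ℝ}
    {C γ : ℝ} (hk : ∀ a b, |k a b| ≤ C) (hf : E μ (fun a => f a ^ 2) ≤ γ ^ 2)
    (hg : E ν (fun b => g b ^ 2) ≤ γ ^ 2) :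
    E μ (fun a => E ν fun b => f a * k a b * g b) ≤ C * γ ^ 2 := by
  have C0 : 0 ≤ C := by
    obtain ⟨a, -, -⟩ := exists_ge_avg hμ f
    exact (abs_nonneg _).trans (hk a a)
  have e : ∀ a b, f a * k a b * g b ≤ C / 2 * f a ^ 2 + C / 2 * g b ^ 2 := fun a b => by
    have t1 : f a * k a b * g b ≤ C * |f a * g b| := by
      refine (le_abs_self _).trans ?_
      rw [mul_right_comm, abs_mul, mul_comm]
      exact mul_le_mul_of_nonneg_right (hk a b) (abs_nonneg _)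
    have t2 : |f a * g b| ≤ (f a ^ 2 + g b ^ 2) / 2 := by
      rw [abs_le]
      constructor <;> nlinarith [sq_nonneg (f a + g b), sq_nonneg (f a - g b)]
    nlinarith [mul_le_mul_of_nonneg_left t2 C0]
  refine (E_mono hμ fun a => E_mono hν (e a)).trans ?_
  simp only [E_add, E_const hν, E_const hμ, E_mul]
  nlinarith [mul_le_mul_of_nonneg_left hf C0, mul_le_mul_of_nonneg_left hg C0]

/-- Bounded functions on the pool `μ` are mapped to mean-square small functions on `ν`. -/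
def Sm (W : V → V → ℝ) (μ ν : V → ℝ) (γ : ℝ) : Prop :=
  ∀ f : V → ℝ, (∀ a, |f a| ≤ 1) → E ν (fun y => (E μ fun x => W y x * f x) ^ 2) ≤ γ ^ 2

lemma Sm.scale {W : V → V → ℝ} {μ ν : V → ℝ} {γ : ℝ} (h : Sm W μ ν γ) {f : V → ℝ} {C : ℝ}
    (C0 : 0 < C) (hf : ∀ a, |f a| ≤ C) :
    E ν (fun y => (E μ fun x => W y x * f x) ^ 2) ≤ (C * γ) ^ 2 := by
  have h1 := h (fun a => f a / C) fun a => by
    rw [abs_div, abs_of_pos C0, div_le_one C0]
    exact hf a
  have e : ∀ y, (E μ fun x => W y x * f x) ^ 2 = C ^ 2 * (E μ fun x => W y x * (f x / C)) ^ 2 :=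
    fun y => by
      rw [← mul_pow, ← E_mul]
      congr 1
      exact E_congr _ fun x => by field_simp
  simp only [e]
  rw [E_mul, mul_pow]
  exact mul_le_mul_of_nonneg_left h1 (sq_nonneg C)

lemma sm_of_noWin {W : V → V → ℝ} (hs : ∀ a b, W a b = W b a) (h1 : ∀ a b, |W a b| ≤ 1) {k : ℕ}
    (hk : 2 ≤ k) {e : ℝ} (he : 0 < e) (he1 : e ≤ 1) (hw : NoWin W k e) {P Q : V → ℝ}
    (hP : IsProb P) (hQ : IsProb Q)
    (hc : 68 * prs k * (∑ a, P a ^ 2 + ∑ a, Q a ^ 2) ≤ e ^ 3) : Sm W P Q (81 * e) := by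
  intro f hf
  set h : V → ℝ := fun y => E P fun x => W y x * f x with hh
  have h2 : ∀ y, |h y| ≤ 1 := fun y => abs_E_le hP fun x => by
    rw [abs_mul]
    exact mul_le_one₀ (h1 y x) (abs_nonneg _) (hf x)
  set m : ℝ := E P f with hm
  have m1 := abs_le.1 (abs_E_le hP hf : |m| ≤ 1)
  set P' : V → ℝ := fun a => P a * (1 + (f a - m) / 2) with hP'
  have hP1 : IsProb P' := by
    refine ⟨fun a => mul_nonneg (hP.1 a) (by linarith [(abs_le.1 (hf a)).1]), ?_⟩
    change E P (fun a => 1 + (f a - m) / 2) = 1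
    simp only [div_eq_mul_inv]
    rw [E_add, E_mul', E_sub, E_const hP, E_const hP]
    ring
  set N : ℝ := E Q fun y => |h y| with hN
  have N0 : 0 ≤ N := le_E hQ fun y => abs_nonneg _
  set Q' : V → ℝ := fun y => Q y * ((|h y| + e) * (N + e)⁻¹) with hQ'
  have hQ1 : IsProb Q' := by
    refine ⟨fun y => mul_nonneg (hQ.1 y) (by positivity), ?_⟩
    change E Q (fun y => (|h y| + e) * (N + e)⁻¹) = 1
    rw [E_mul', E_add, E_const hQ]
    exact mul_inv_cancel₀ (by positivity)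
  have p0 := prs_nonneg k
  have q1 : 0 ≤ ∑ a, P a ^ 2 := by positivity
  have q2 : 0 ≤ ∑ a, Q a ^ 2 := by positivity
  have c1 : ∑ a, P' a ^ 2 ≤ 4 * ∑ a, P a ^ 2 := by
    rw [mul_sum]
    refine sum_le_sum fun a _ => ?_
    rw [hP', mul_pow, mul_comm]
    refine mul_le_mul_of_nonneg_right ?_ (sq_nonneg _)
    nlinarith [(abs_le.1 (hf a)).1, (abs_le.1 (hf a)).2]
  have c2 : e ^ 2 * ∑ a, Q' a ^ 2 ≤ 4 * ∑ a, Q a ^ 2 := by
    rw [mul_sum, mul_sum]
    refine sum_le_sum fun a _ => ?_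
    rw [hQ', mul_pow, mul_left_comm, mul_comm, ← mul_pow]
    refine mul_le_mul_of_nonneg_right ?_ (sq_nonneg _)
    have t1 : e * ((|h a| + e) * (N + e)⁻¹) ≤ 2 := by
      rw [mul_left_comm]
      have : e * (N + e)⁻¹ ≤ 1 := by
        rw [← div_eq_mul_inv, div_le_one (by positivity)]
        linarith
      have t0 : 0 ≤ e * (N + e)⁻¹ := by positivity
      nlinarith [h2 a, abs_nonneg (h a)]
    have t2 : 0 ≤ e * ((|h a| + e) * (N + e)⁻¹) := by positivity
    nlinarith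
  have c3 : ∀ X : ℝ, 0 ≤ X → X ≤ 4 * ∑ a, P a ^ 2 → 17 * prs k * (∑ a, Q' a ^ 2 + X) ≤ e := by
    intro X X0 hX
    refine le_of_mul_le_mul_left ?_ (by positivity : 0 < e ^ 2)
    have t1 : e ^ 2 * X ≤ 4 * ∑ a, P a ^ 2 := by
      have : e ^ 2 ≤ 1 := by nlinarith
      nlinarith
    nlinarith [mul_le_mul_of_nonneg_left (add_le_add c2 t1) p0]
  have a1 := cross_abs hs h1 hk he.le hw hQ1 hP
  have a2 := cross_abs hs h1 hk he.le hw hQ1 hP1
  have a3 := c3 _ q1 (by linarith)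
  have a4 := c3 _ (by positivity) c1
  change E Q' (fun y => |E P (W y)|) ≤ _ at a1
  change E Q' (fun y => |E P' (W y)|) ≤ _ at a2
  have e1 : ∀ y, |h y| ≤ 2 * |E P' (W y)| + 3 * |E P (W y)| := fun y => by
    have t1 : h y = 2 * E P' (W y) - (2 - m) * E P (W y) := by
      rw [hP', E_tilt, ← E_mul, ← E_mul, ← E_sub]
      exact E_congr _ fun x => by ring
    rw [t1]
    refine (abs_sub _ _).trans ?_
    rw [abs_mul, abs_mul, abs_of_nonneg (by linarith : 0 ≤ 2 - m), abs_two]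
    nlinarith [abs_nonneg (E P (W y))]
  have e2 : E Q' (fun y => |h y|) ≤ 80 * e := by
    refine (E_mono hQ1 e1).trans ?_
    rw [E_add, E_mul, E_mul]
    linarith
  set S : ℝ := E Q fun y => h y ^ 2 with hS
  have e3 : E Q' (fun y => |h y|) = (S + e * N) * (N + e)⁻¹ := by
    rw [hQ', E_tilt, hS, hN, ← E_mul, ← E_add, ← E_mul']
    exact E_congr _ fun y => by rw [← sq_abs (h y)]; ring
  rw [e3, ← div_eq_mul_inv, div_le_iff₀ (by positivity)] at e2
  have e4 : 160 * e * N ≤ S + (80 * e) ^ 2 := by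
    rw [hN, ← E_mul, hS, ← E_const hQ ((80 * e) ^ 2), ← E_add]
    exact E_mono hQ fun y => by rw [← sq_abs (h y)]; nlinarith [sq_nonneg (|h y| - 80 * e)]
  change S ≤ _
  nlinarith [mul_nonneg he.le N0]

end Pool.Agent.MP_dd175f_co.Tri
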