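import Pool.Agent.MP_dd175f_co.Tri.Core

/-! The constant `8 / 9` in the regime of moderate deviations. -/

set_option autoImplicit false

namespace Pool.Agent.MP_dd175f_co.Tri

open Finset Filter Topology Nb34004ea Pool.Agent.MP_dd175f_co.Pair

lemma err_le {k ε ω M : ℝ} (k0 : 0 ≤ k) (ω0 : 0 < ω) (ω1 : ω ≤ 1 / 100) (ε0 : 0 < ε)
    (M1 : 1 ≤ M) (hM : ε ^ 2 * k ≤ M) (hε : 4 * 10 ^ 11 * M ^ 2 * ε ≤ ω ^ 6) :
    k * (k * (k * (6 * (20 * ε / ω) ^ 2 * (81 * (2 * ε)) ^ 2 +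
      k * ((20 * ε / ω) ^ 2 * (99 * (20 * ε / ω) ^ 2 * (81 * (2 * ε)) ^ 2 +
        64 * (20 * ε / ω) ^ 3 * (81 * (2 * ε))))))) ≤ ω / 8 * (ε * k ^ 2) := by
  set u : ℝ := ω⁻¹ with hu
  have u1 : ω * u = 1 := mul_inv_cancel₀ ω0.ne'
  have u0 : 0 < u := by positivity
  have u2 : 100 ≤ u := by nlinarith
  set X : ℝ := ε ^ 2 * k with hX
  have X0 : 0 ≤ X := by positivity
  have e1 : k * (k * (k * (6 * (20 * ε / ω) ^ 2 * (81 * (2 * ε)) ^ 2 +
      k * ((20 * ε / ω) ^ 2 * (99 * (20 * ε / ω) ^ 2 * (81 * (2 * ε)) ^ 2 +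
        64 * (20 * ε / ω) ^ 3 * (81 * (2 * ε))))))) = ε * k ^ 2 * (ε * (62985600 * u ^ 2 * X +
        415704960000 * u ^ 4 * X ^ 2 + 33177600000 * u ^ 5 * X ^ 2)) := by
    simp only [div_eq_mul_inv, ← hu, hX]
    ring
  rw [e1, mul_comm (ω / 8)]
  refine mul_le_mul_of_nonneg_left ?_ (by positivity)
  have a1 : X ≤ M ^ 2 := by nlinarith
  have a2 : X ^ 2 ≤ M ^ 2 := by gcongr
  have a3 : 100 * u ^ 4 ≤ u ^ 5 := by
    rw [pow_succ u 4, mul_comm]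
    gcongr
  have a4 : u ^ 2 ≤ u ^ 4 := pow_le_pow_right₀ (by linarith) (by norm_num)
  have a5 : 62985600 * u ^ 2 * X + 415704960000 * u ^ 4 * X ^ 2 + 33177600000 * u ^ 5 * X ^ 2 ≤
      5 * 10 ^ 10 * u ^ 5 * M ^ 2 := by
    have b1 : u ^ 2 * X ≤ u ^ 4 * M ^ 2 := by gcongr
    have b2 : u ^ 4 * X ^ 2 ≤ u ^ 4 * M ^ 2 := by gcongr
    have b3 : u ^ 5 * X ^ 2 ≤ u ^ 5 * M ^ 2 := by gcongr
    have b4 := mul_le_mul_of_nonneg_right a3 (sq_nonneg M)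
    have b5 : 0 ≤ u ^ 4 * M ^ 2 := by positivity
    linarith
  have a6 := mul_le_mul_of_nonneg_left hε (by positivity : 0 ≤ u ^ 5 / 8)
  have a7 : u ^ 5 / 8 * ω ^ 6 = ω / 8 := by
    calc _ = (ω * u) ^ 5 * (ω / 8) := by ring
      _ = _ := by rw [u1]; ring
  nlinarith [mul_le_mul_of_nonneg_left a5 ε0.le]

lemma gain_ge {k ε ω : ℝ} (k0 : 0 ≤ k) (ω0 : 0 < ω) (ω1 : ω ≤ 1 / 100) (ε0 : 0 < ε)
    (ε2 : 128000 * ε ≤ ω) (hk : 10 ≤ k * ω) :
    (1 + ω / 2) * (ε * k ^ 2) ≤ (1 - 2 * (81 * (2 * ε)) ^ 2) * (3 / 2 * (1 + ω) * ε * √k) *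
      (2 / 3 * k * √k - √k - k * (ω / 10 * √k)) := by
  have sk2 := Real.mul_self_sqrt k0
  set r : ℝ := 3 / 2 * (1 + ω) with hr
  have r0 : 0 < r := by positivity
  set q : ℝ := 1 - 2 * (81 * (2 * ε)) ^ 2 with hq
  have q1 : 1 - ω / 100 ≤ q := by nlinarith
  have t1 : q * (r * ε * √k) * (2 / 3 * k * √k - √k - k * (ω / 10 * √k)) =
      ε * k * (q * r * (2 / 3 * k - 1 - ω / 10 * k)) := by
    linear_combination q * r * ε * (2 / 3 * k - 1 - ω / 10 * k) * sk2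
  have t2 : (2 / 3 - ω / 5) * k ≤ 2 / 3 * k - 1 - ω / 10 * k := by linarith
  have t3 : 1 + ω / 2 ≤ (1 - ω / 100) * r * (2 / 3 - ω / 5) := by
    rw [hr]
    nlinarith [mul_pos ω0 ω0, mul_pos ω0 (mul_pos ω0 ω0)]
  have t4 : (1 - ω / 100) * r * ((2 / 3 - ω / 5) * k) ≤ q * r * (2 / 3 * k - 1 - ω / 10 * k) :=
    mul_le_mul (mul_le_mul_of_nonneg_right q1 r0.le) t2
      (mul_nonneg (by linarith) k0) (mul_nonneg (by linarith) r0.le)
  have t5 : (1 + ω / 2) * k ≤ q * r * (2 / 3 * k - 1 - ω / 10 * k) := by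
    linarith [mul_le_mul_of_nonneg_right t3 k0]
  rw [t1]
  calc _ = ε * k * ((1 + ω / 2) * k) := by ring
    _ ≤ _ := mul_le_mul_of_nonneg_left t5 (by positivity)

lemma lt_F {n k : ℕ} {ε ω M : ℝ} (ω0 : 0 < ω) (ω1 : ω ≤ 1 / 100) (ε0 : 0 < ε)
    (ε1 : ε ≤ ω ^ 2 / 1280) (hk : 10 / ω ≤ k) (hn : k ≤ n)
    (hL : 9 / 8 * (1 + ω) ^ 4 * (ε ^ 2 * k) ≤ (1 - ω / 2) * Real.log n + 3)
    (herr : 34 * Real.exp 3 * (k : ℝ) ^ 7 / ε ^ 3 * Real.exp (-(ω ^ 2 / 48 * Real.log n)) ≤ ε)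
    (M1 : 1 ≤ M) (hM : ε ^ 2 * k ≤ M) (hε : 4 * 10 ^ 11 * M ^ 2 * ε ≤ ω ^ 6) :
    k < F n (1 / 2 - ε) := by
  by_contra hF
  obtain ⟨W, hs, h1, hw⟩ := noWin (not_lt.1 hF)
  rw [div_le_iff₀ ω0] at hk
  have k0 : (0 : ℝ) ≤ k := Nat.cast_nonneg k
  have k2 : (2 : ℝ) ≤ k := by linarith [mul_le_mul_of_nonneg_left ω1 k0]
  have k2' : 2 ≤ k := by exact_mod_cast k2
  have N0 : 0 < n / k := Nat.div_pos hn (by omega)
  have ε2 : 128000 * ε ≤ ω := by linarith [mul_le_mul_of_nonneg_left ω1 ω0.le]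
  have g8 : 2 * ε * prs k ≤ ε * (k : ℝ) ^ 2 := by
    unfold prs
    linarith [mul_nonneg ε0.le k0]
  have g9 : ε * (10 * 2) ≤ ε * (k * ω * k) :=
    mul_le_mul_of_nonneg_left (mul_le_mul hk k2 (by norm_num) (by positivity)) ε0.le
  have v1 : 20 * ε / ω ≤ ω / 64 := by
    rw [div_le_iff₀ ω0]
    linarith
  set r : ℝ := 3 / 2 * (1 + ω) with hr
  have r0 : 0 < r := by positivity
  have e1 : √((r * ε) ^ 2 * k) = r * ε * √(k : ℝ) := by
    rw [Real.sqrt_mul (sq_nonneg _), Real.sqrt_sq (by positivity)]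
  have e2 : √((ω / 10) ^ 2 * k) = ω / 10 * √(k : ℝ) := by
    rw [Real.sqrt_mul (sq_nonneg _), Real.sqrt_sq (by positivity)]
  have e3 : √((r * ε) ^ 2 * k / ((ω / 10) ^ 2 * k)) = r * ε / (ω / 10) := by
    rw [mul_div_mul_right _ _ (by linarith), ← div_pow, Real.sqrt_sq (by positivity)]
  have hc := core hs h1 k2' N0 (by rw [Fintype.card_fin]; exact Nat.mul_div_le n k)
    (e := 2 * ε) (by positivity) (by linarith) hw (l := (r * ε) ^ 2 * k) (D := (ω / 10) ^ 2 * k)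
    (s := ω / 24) (v := 20 * ε / ω) (by positivity) (by linarith) (by positivity) (by positivity)
    (by
      rw [e3, div_div_eq_mul_div]
      refine div_le_div_of_nonneg_right ?_ ω0.le
      have : r * ε ≤ 2 * ε := mul_le_mul_of_nonneg_right (by linarith) ε0.le
      linarith) (by linarith)
  rw [e1, e2] at hc
  have g0 := err_le k0 ω0 ω1 ε0 M1 hM hε
  have g1 := gain_ge k0 ω0 ω1 ε0 ε2 hk
  rw [← hr] at g1
  have n0 : (0 : ℝ) < n := by exact_mod_cast (by omega : 0 < n)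
  have g2 : Real.log n ≤ Real.log (2 * k) + Real.log (n / k : ℕ) := by
    have N1 : (0 : ℝ) < (n / k : ℕ) := by exact_mod_cast N0
    rw [← Real.log_mul (by positivity) N1.ne']
    refine Real.log_le_log n0 ?_
    have t1 := Nat.lt_mul_div_succ n (by omega : 0 < k)
    have t2 : n ≤ 2 * k * (n / k) := by
      clear * - t1 N0
      nlinarith
    exact_mod_cast t2
  have g3 : (r * ε) ^ 2 * k * ((1 / 2 + 16 * (20 * ε / ω) + 6 * (ω / 24)) *
      (1 + 3 * (81 * (2 * ε)))) ≤ (1 - ω / 2) * Real.log n + 3 := by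
    refine le_trans ?_ hL
    calc _ ≤ (r * ε) ^ 2 * k * ((1 + ω) / 2 * (1 + ω)) :=
          mul_le_mul_of_nonneg_left (mul_le_mul (by linarith) (by linarith) (by positivity)
            (by positivity)) (by positivity)
      _ = _ := by rw [hr]; ring
  have g4 : Real.exp (ω / 24 * ((r * ε) ^ 2 * k * ((1 / 2 + 16 * (20 * ε / ω) + 6 * (ω / 24)) *
      (1 + 3 * (81 * (2 * ε)))) - Real.log (n / k : ℕ))) ≤
      Real.exp 3 * (2 * k) * Real.exp (-(ω ^ 2 / 48 * Real.log n)) := by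
    have l0 : 0 ≤ Real.log (2 * k) := Real.log_nonneg (by linarith)
    rw [← Real.exp_log (by linarith : (0 : ℝ) < 2 * k), ← Real.exp_add, ← Real.exp_add]
    refine Real.exp_le_exp.2 ?_
    have t1 := mul_le_mul_of_nonneg_left (add_le_add g3 g2) (by positivity : 0 ≤ ω / 24)
    have t2 := mul_le_mul_of_nonneg_right (by linarith : ω / 24 ≤ 1) l0
    linarith
  have g5 : 136 * (k : ℝ) ^ 6 / (2 * ε) ^ 3 * (Real.exp 3 * (2 * k) *
      Real.exp (-(ω ^ 2 / 48 * Real.log n))) ≤ ε := by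
    refine le_trans (le_of_eq ?_) herr
    field_simp
    ring
  have g6 := mul_le_mul_of_nonneg_left g4 (by positivity : 0 ≤ 136 * (k : ℝ) ^ 6 / (2 * ε) ^ 3)
  have g7 := g1.trans (hc.trans (add_le_add (add_le_add le_rfl (g6.trans g5)) g0))
  clear hc g0 g1 g2 g3 g4 g5 g6 herr hL e1 e2 e3 hε
  linarith

lemma eight_ninths {c : ℝ} (hc : c < 8 / 9) : ∃ δ : ℝ, 0 < δ ∧ ∀ᶠ n : ℕ in atTop, ∀ ε : ℝ,
    (n : ℝ) ^ (-δ) ≤ ε → ε ≤ δ / Real.log n ^ 2 → c / ε ^ 2 * Real.log n ≤ F n (1 / 2 - ε) := by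
  by_cases c0 : c ≤ 0
  · refine ⟨1, one_pos, Eventually.of_forall fun n ε _ _ => le_trans ?_ (Nat.cast_nonneg _)⟩
    exact mul_nonpos_of_nonpos_of_nonneg (div_nonpos_of_nonpos_of_nonneg c0 (sq_nonneg _))
      (Real.log_natCast_nonneg n)
  replace c0 := not_le.1 c0
  obtain ⟨ω, ω0, ω1, ω2⟩ : ∃ ω : ℝ, 0 < ω ∧ ω ≤ 1 / 100 ∧
      9 / 8 * (1 + ω) ^ 4 * c ≤ 1 - ω / 2 := by
    refine ⟨(1 - 9 / 8 * c) / 100, by linarith, by linarith, ?_⟩
    set ω := (1 - 9 / 8 * c) / 100 with hω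
    have a0 : 0 < ω := by linarith
    have a1 : ω ≤ 1 / 100 := by linarith
    have a2 : (1 + ω) ^ 2 ≤ 1 + 3 * ω := by nlinarith
    have a3 : (1 + ω) ^ 4 ≤ 1 + 7 * ω := by
      calc (1 + ω) ^ 4 = ((1 + ω) ^ 2) ^ 2 := by ring
        _ ≤ (1 + 3 * ω) ^ 2 := by gcongr
        _ ≤ _ := by nlinarith
    have a4 : 9 / 8 * c = 1 - 100 * ω := by linarith
    nlinarith [mul_le_mul_of_nonneg_right a3 c0.le]
  set δ : ℝ := ω ^ 6 / (16 * 10 ^ 11) with hδ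
  have δ0 : 0 < δ := by positivity
  have δ1 : δ ≤ ω ^ 2 / 1728 := by
    have : ω ^ 6 ≤ ω ^ 2 := pow_le_pow_of_le_one ω0.le (by linarith) (by norm_num)
    rw [hδ]
    nlinarith [sq_nonneg ω]
  have ω3 : ω ^ 2 ≤ 1 := by nlinarith
  refine ⟨δ, δ0, ?_⟩
  have tl : Tendsto (fun n : ℕ => Real.log n) atTop atTop :=
    Real.tendsto_log_atTop.comp tendsto_natCast_atTop_atTop
  have t1 : Tendsto (fun L : ℝ => 4352 * Real.exp 3 *
      (L ^ (7 : ℝ) * Real.exp (-(ω ^ 2 / 96) * L))) atTop (𝓝 (4352 * Real.exp 3 * 0)) :=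
    (tendsto_rpow_mul_exp_neg_mul_atTop_nhds_zero 7 (ω ^ 2 / 96) (by positivity)).const_mul _
  rw [mul_zero] at t1
  filter_upwards [tl.eventually (t1.eventually_le_const one_pos), tl.eventually_ge_atTop 1,
    tl.eventually_ge_atTop (10 / ω / c), eventually_gt_atTop 0] with n h1 h2 h4 h5 ε ε1 ε2
  have n0 : (0 : ℝ) < n := by exact_mod_cast h5
  rw [Real.rpow_def_of_pos n0] at ε1
  set L := Real.log n with hL
  have L7 : L ^ (7 : ℝ) = L ^ 7 := by exact_mod_cast Real.rpow_natCast L 7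
  rw [L7] at h1
  have ε0 : 0 < ε := (Real.exp_pos _).trans_le ε1
  rw [le_div_iff₀ (by positivity)] at ε2
  have ε3 : ε ≤ δ := by nlinarith [mul_le_mul_of_nonneg_left (one_le_pow₀ h2 : 1 ≤ L ^ 2) ε0.le]
  have ε4 : ε ^ 2 ≤ 1 := by nlinarith
  set C : ℝ := c / ε ^ 2 with hC
  have C0 : 0 < C := by positivity
  have k1 := Nat.le_ceil (C * L)
  have k2 := (Nat.ceil_lt_add_one (by positivity : 0 ≤ C * L)).le
  set k := ⌈C * L⌉₊
  have k0 : (0 : ℝ) ≤ k := Nat.cast_nonneg k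
  have q1 : ε ^ 2 * k ≤ c * L + 1 := by
    have : ε ^ 2 * (C * L + 1) = c * L + ε ^ 2 := by
      rw [hC]
      field_simp
    have := mul_le_mul_of_nonneg_left k2 (sq_nonneg ε)
    linarith
  have q2 : ε ^ 2 * k ≤ 2 * L := by nlinarith
  have x1 : 1 ≤ Real.exp 3 := Real.one_le_exp (by norm_num)
  have q3 : 4352 * Real.exp 3 * L ^ 7 * Real.exp (-(ω ^ 2 / 48 * L)) ≤ ε ^ 18 := by
    calc _ = 4352 * Real.exp 3 * (L ^ 7 * Real.exp (-(ω ^ 2 / 96) * L)) *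
          Real.exp (-(ω ^ 2 / 96) * L) := by
          rw [mul_assoc, mul_assoc, mul_assoc, mul_assoc, mul_assoc, ← Real.exp_add]
          congr 4
          ring
      _ ≤ 1 * Real.exp (L * -δ) ^ 18 := by
          refine mul_le_mul h1 ?_ (by positivity) zero_le_one
          rw [← Real.exp_nat_mul]
          refine Real.exp_le_exp.2 ?_
          push_cast
          nlinarith
      _ ≤ _ := by
          rw [one_mul]
          gcongr
  have := lt_F (n := n) (k := k) (M := 2 * L) ω0 ω1 ε0 (by nlinarith [sq_nonneg ω]) ?_ ?_ ?_ ?_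
    (by linarith) q2 ?_
  · exact k1.trans (by exact_mod_cast this.le)
  · rw [div_le_iff₀ c0] at h4
    have : c ≤ C := by
      rw [hC, le_div_iff₀ (by positivity)]
      nlinarith
    nlinarith
  · have a1 : Real.exp (-L) ≤ Real.exp (-(ω ^ 2 / 48 * L)) := Real.exp_le_exp.2 (by nlinarith)
    have a2 : ε ^ 18 ≤ ε ^ 2 := pow_le_pow_of_le_one ε0.le (by nlinarith) (by norm_num)
    have a3 : L ≤ L ^ 7 := le_self_pow₀ h2 (by norm_num)
    have a4 : 2 * L * Real.exp (-L) ≤ ε ^ 2 := by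
      refine le_trans ?_ (q3.trans a2)
      refine mul_le_mul ?_ a1 (by positivity) (by positivity)
      nlinarith
    have a5 : Real.exp (-L) * n = 1 := by
      rw [Real.exp_neg, hL, Real.exp_log n0, inv_mul_cancel₀ n0.ne']
    have a6 : ε ^ 2 * k ≤ ε ^ 2 * n := by nlinarith [mul_le_mul_of_nonneg_right a4 n0.le]
    exact_mod_cast le_of_mul_le_mul_left a6 (by positivity)
  · have q4 : (1 + ω) ^ 4 ≤ (1 + 1 / 100) ^ 4 := by gcongr
    have q5 := mul_le_mul_of_nonneg_left q1 (by positivity : 0 ≤ 9 / 8 * (1 + ω) ^ 4)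
    nlinarith [mul_le_mul_of_nonneg_right ω2 (by linarith : 0 ≤ L)]
  · rw [← hL]
    refine le_of_mul_le_mul_left ?_ (by positivity : 0 < ε ^ 17)
    calc _ = 34 * Real.exp 3 * (ε ^ 2 * k) ^ 7 * Real.exp (-(ω ^ 2 / 48 * L)) := by field_simp
      _ ≤ 34 * Real.exp 3 * (2 * L) ^ 7 * Real.exp (-(ω ^ 2 / 48 * L)) := by gcongr
      _ = 4352 * Real.exp 3 * L ^ 7 * Real.exp (-(ω ^ 2 / 48 * L)) := by ring
      _ ≤ _ := q3.trans_eq (by ring)
  · rw [hδ, le_div_iff₀ (by positivity)] at ε2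
    linarith

end Pool.Agent.MP_dd175f_co.Tri
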