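import Pool.Agent.MP_dd175f_co.Tri.Step

/-! All rounds together: a potential with bias and triangle terms. -/

set_option autoImplicit false

namespace Pool.Agent.MP_dd175f_co.Tri

open Finset Pool.Agent.MP_dd175f_co.Pair

variable {V : Type} [Fintype V] {W : V → V → ℝ}

/-- What one round gives for the later pools. -/
def Step (W : V → V → ℝ) (Ψ : (V → ℝ) → ℝ) (ρ κ A η₁ η₂ : ℝ) (θ : ℕ → ℝ) : Prop :=
  ∀ (m : ℕ) (P : V → ℝ) (Q : ℕ → V → ℝ), IsProb P → (∀ j, IsProb (Q j)) →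
    ∃ R : ℕ → V → V → ℝ, (∀ j a, IsProb (R j a)) ∧ (∀ j a z, R j a z ≠ 0 → Q j z ≠ 0) ∧
      (∀ j g, E P (fun a => E (R j a) g) = E (Q j) g) ∧
      (∀ j < m, B W P (Q j) + θ j * κ - (Ψ P + ∑ i ∈ range m, Ψ (Q i)) / ρ ≤
        E P fun a => E (R j a) (W a)) ∧
      (∀ j < m, ∀ i < m, B W (Q i) (Q j) + θ i * θ j * T W P (Q i) (Q j) - η₁ -
        (Ψ P + ∑ i ∈ range m, Ψ (Q i)) / ρ ≤ E P fun a => B W (R i a) (R j a)) ∧
      (∀ j < m, ∀ i < m, ∀ r < m, T W (Q r) (Q i) (Q j) - η₂ ≤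
        E P fun a => T W (R r a) (R i a) (R j a)) ∧
      ∀ j < m, E P (fun a => Ψ (R j a)) ≤ (1 + A * θ j ^ 2) * Ψ (Q j)

lemma step (hs : ∀ a b, W a b = W b a) (h1 : ∀ a b, |W a b| = 1) {k : ℕ} (hk : 2 ≤ k) {e : ℝ}
    (he : 0 < e) (he1 : 81 * e ≤ 1) (hw : NoWin W k e) {s v : ℝ} (s0 : 0 ≤ s) (s1 : s ≤ 1)
    (hv : v ≤ 1 / 8) (θ : ℕ → ℝ) (hθ : ∀ j, 0 ≤ θ j ∧ θ j ≤ v) :
    Step W (Psi s) (e ^ 3 / (136 * prs k)) (1 - 2 * (81 * e) ^ 2)
      (s * ((1 / 2 + 16 * v + 6 * s) * (1 + 3 * (81 * e)))) (6 * v ^ 2 * (81 * e) ^ 2)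
      (99 * v ^ 2 * (81 * e) ^ 2 + 64 * v ^ 3 * (81 * e)) θ := by
  intro m P Q hP hQ
  have h1' : ∀ a b, |W a b| ≤ 1 := fun a b => (h1 a b).le
  have hp : 0 < prs k := by
    have : (2 : ℝ) ≤ k := by exact_mod_cast hk
    unfold prs
    nlinarith
  have v0 : 0 ≤ v := (hθ 0).1.trans (hθ 0).2
  have p1 := Psi_nonneg s hP
  have p2 : 0 ≤ ∑ i ∈ range m, Psi s (Q i) := sum_nonneg fun i _ => Psi_nonneg s (hQ i)
  set ρ := e ^ 3 / (136 * prs k) with hρ
  have ρ0 : 0 < ρ := by positivity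
  set γ := 81 * e with hγ
  have γ0 : 0 < γ := by positivity
  have mm : ∀ i j, θ i * θ j ≤ v ^ 2 := fun i j => by
    nlinarith [(hθ i).1, (hθ i).2, (hθ j).1, (hθ j).2]
  have b0 : 0 ≤ (Psi s P + ∑ i ∈ range m, Psi s (Q i)) / ρ := by positivity
  by_cases hg : Psi s P + ∑ i ∈ range m, Psi s (Q i) ≤ ρ
  · have sm : ∀ μ ν : V → ℝ, IsProb μ → IsProb ν → Psi s μ ≤ ρ → Psi s ν ≤ ρ → Sm W μ ν γ := by
      intro μ ν hμ hν a1 a2
      refine sm_of_noWin hs h1' hk he (by linarith) hw hμ hν ?_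
      have q1 := sq_le_Psi s0 s1 hμ
      have q2 := sq_le_Psi s0 s1 hν
      have q3 : e ^ 3 = 68 * prs k * (ρ + ρ) := by
        rw [hρ]
        field_simp
        ring
      rw [q3]
      exact mul_le_mul_of_nonneg_left (by linarith) (by positivity)
    have g0 : Psi s P ≤ ρ := by linarith
    have g1 : ∀ j < m, Psi s (Q j) ≤ ρ := fun j hj => by
      have := single_le_sum (f := fun i => Psi s (Q i)) (fun i _ => Psi_nonneg s (hQ i))
        (mem_range.2 hj)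
      linarith
    have sPQ := fun j hj => sm P (Q j) hP (hQ j) g0 (g1 j hj)
    have sQP := fun j hj => sm (Q j) P (hQ j) hP (g1 j hj) g0
    have sQQ := fun i hi j hj => sm (Q i) (Q j) (hQ i) (hQ j) (g1 i hi) (g1 j hj)
    refine ⟨fun j => tl W P (Q j) (θ j), fun j a => tl_prob hs h1' hP (hQ j) (hθ j).1
      ((hθ j).2.trans hv) a, fun j a z h => left_ne_zero_of_mul h, fun j g => tl_mart hs hP _ g,
      fun j hj => ?_, fun j hj i hi => ?_, fun j hj i hi r hr => ?_, fun j hj => ?_⟩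
    · linarith [tl_gain hs h1 (hQ j) hP (sPQ j hj) (sQP j hj) (hθ j).1]
    · have := tl_B hs h1' hP (hQ i) (hQ j) (sPQ i hi) (sPQ j hj) (sQP i hi) (sQP j hj)
        (sQQ i hi j hj) (sQQ j hj i hi) (hθ i).1 (hθ j).1
      nlinarith [mul_le_mul_of_nonneg_right (mm i j) (sq_nonneg γ)]
    · exact tl_T hs h1' hP (hQ r) (hQ i) (hQ j) (sPQ r hr) (sPQ i hi) (sQQ j hj r hr)
        (sQQ i hi r hr) (sQQ r hr i hi) γ0 (hθ r).1 (hθ i).1 (hθ j).1 (hθ r).2 (hθ i).2 (hθ j).2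
    · refine (tl_psi hs h1 hP (hQ j) (sQP j hj) γ0 he1 (hθ j).1 (hθ j).2 hv s0 s1).trans_eq ?_
      ring
  · have b1 : 1 ≤ (Psi s P + ∑ i ∈ range m, Psi s (Q i)) / ρ := (one_le_div ρ0).2 (not_le.1 hg).le
    refine ⟨fun j _ => Q j, fun j _ => hQ j, fun _ _ _ h => h, fun j g => E_const hP _,
      fun j hj => ?_, fun j hj i hi => ?_, fun j hj i hi r hr => ?_, fun j hj => ?_⟩
    · change _ ≤ B W P (Q j)
      nlinarith [mul_nonneg (hθ j).1 (sq_nonneg γ), (hθ j).2]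
    · rw [E_const hP]
      have t1 : T W P (Q i) (Q j) ≤ 1 := E_le hP fun y => E_le (hQ i) fun z => E_le (hQ j) fun w =>
        (le_abs_self _).trans_eq (by rw [abs_mul, abs_mul, h1, h1, h1]; norm_num)
      have t2 := mul_le_mul_of_nonneg_left t1 (mul_nonneg (hθ i).1 (hθ j).1)
      have t3 : 0 ≤ 6 * v ^ 2 * γ ^ 2 := by positivity
      nlinarith [mm i j]
    · rw [E_const hP]
      have : 0 ≤ 99 * v ^ 2 * γ ^ 2 + 64 * v ^ 3 * γ := by positivity
      linarith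
    · rw [E_const hP]
      refine le_mul_of_one_le_left (Psi_nonneg s (hQ j)) (le_add_of_nonneg_right ?_)
      positivity

/-- The part of the potential that is odd in the kernel. -/
def odd (W : V → V → ℝ) (θ : ℕ → ℝ) (Q : ℕ → V → ℝ) (j : ℕ) : ℝ :=
  ∑ i ∈ range j, (B W (Q i) (Q j) + θ i * θ j * ∑ r ∈ range i, T W (Q r) (Q i) (Q j))

/-- The potential of slot `j`. -/
def term (W : V → V → ℝ) (Ψ : (V → ℝ) → ℝ) (κ A C : ℝ) (θ : ℕ → ℝ) (Q : ℕ → V → ℝ) (g : V → ℝ)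
    (j : ℕ) : ℝ :=
  E (Q j) g + j * (θ j * κ) - C * (j + 1) * (1 + A * θ j ^ 2) ^ j * Ψ (Q j) + odd W θ Q j

lemma rounds {Ψ : (V → ℝ) → ℝ} (hΨ : ∀ μ, IsProb μ → 0 ≤ Ψ μ) {ρ κ A η₁ η₂ v : ℝ} (hρ : 0 < ρ)
    (A0 : 0 ≤ A) (η1 : 0 ≤ η₁) (η2 : 0 ≤ η₂)
    (hst : ∀ θ : ℕ → ℝ, (∀ j, 0 ≤ θ j ∧ θ j ≤ v) → Step W Ψ ρ κ A η₁ η₂ θ) (K m : ℕ) (hm : m ≤ K)
    (θ : ℕ → ℝ) (hθ : ∀ j, 0 ≤ θ j ∧ θ j ≤ v) (Q : ℕ → V → ℝ) (hQ : ∀ j, IsProb (Q j))
    (g : V → ℝ) :
    ∃ x : ℕ → V, (∀ j < m, Q j (x j) ≠ 0) ∧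
      ∑ j ∈ range m, term W Ψ κ A (K ^ 2 / ρ) θ Q g j - m * (K * (K * (η₁ + K * (v ^ 2 * η₂)))) ≤
        ∑ j ∈ range m, (g (x j) + ∑ i ∈ range j, W (x i) (x j)) := by
  induction m generalizing θ Q g with
  | zero =>
    obtain ⟨v, -, -⟩ := exists_ge_avg (hQ 0) g
    exact ⟨fun _ => v, by simp, by simp⟩
  | succ m ih =>
    have hP := hQ 0
    obtain ⟨R, r1, r2, r3, r4, r5, r6, r7⟩ := hst (fun j => θ (j + 1)) (fun j => hθ _) m (Q 0)
      (fun j => Q (j + 1)) hP fun j => hQ _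
    beta_reduce at r4 r5 r7
    set C : ℝ := K ^ 2 / ρ with hC
    have C0 : 0 ≤ C := by positivity
    set t : V → ℕ → ℝ := fun a =>
      term W Ψ κ A C (fun j => θ (j + 1)) (fun j => R j a) fun z => g z + W a z with ht
    obtain ⟨a, ha, ha'⟩ := exists_ge_avg hP fun a => g a + ∑ j ∈ range m, t a j
    obtain ⟨x, hs, hx⟩ := ih (by omega) (fun j => θ (j + 1)) (fun j => hθ _) (fun j => R j a)
      (fun j => r1 j a) fun z => g z + W a z
    refine ⟨fun j => Nat.casesOn j a x, fun j hj => ?_, ?_⟩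
    · cases j with
      | zero => exact ha
      | succ j => exact r2 j a _ (hs j (by omega))
    set η : ℝ := η₁ + K * (v ^ 2 * η₂) with hη
    have η0 : 0 ≤ η := by positivity
    have e1 : g a + ∑ j ∈ range m, t a j - m * (K * (K * η)) ≤ ∑ j ∈ range (m + 1),
        (g (Nat.casesOn j a x) + ∑ i ∈ range j, W (Nat.casesOn i a x) (Nat.casesOn j a x)) := by
      rw [sum_range_succ']
      simp only [sum_range_succ', range_zero, sum_empty, add_zero, Nat.rec_zero]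
      have e2 : ∑ j ∈ range m, (g (x j) + W a (x j) + ∑ i ∈ range j, W (x i) (x j)) =
          ∑ j ∈ range m, (g (x j) + (∑ i ∈ range j, W (x i) (x j) + W a (x j))) :=
        sum_congr rfl fun j _ => by ring
      rw [e2] at hx
      linarith
    refine le_trans ?_ e1
    set b : ℝ := (Ψ (Q 0) + ∑ i ∈ range m, Ψ (Q (i + 1))) / ρ with hb
    have p0 := hΨ _ hP
    have b0 : 0 ≤ b := div_nonneg (add_nonneg p0 (sum_nonneg fun i _ => hΨ _ (hQ _))) hρ.le
    have mK : (m : ℝ) + 1 ≤ K := by exact_mod_cast hm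
    have e3 : ∀ j ∈ range m, term W Ψ κ A C θ Q g (j + 1) + C * Ψ (Q (j + 1)) - K * b - K * η ≤
        E (Q 0) fun a => t a j := fun j hj => by
      have hj' : j < m := mem_range.1 hj
      have jm : (j : ℝ) + 1 ≤ m := by exact_mod_cast hj'
      have o1 : ∀ i ∈ range j, B W (Q (i + 1)) (Q (j + 1)) + θ (i + 1) * θ (j + 1) *
          ∑ r ∈ range (i + 1), T W (Q r) (Q (i + 1)) (Q (j + 1)) - b - η ≤
          E (Q 0) fun a => B W (R i a) (R j a) + θ (i + 1) * θ (j + 1) *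
            ∑ r ∈ range i, T W (R r a) (R i a) (R j a) := fun i hi => by
        have hi' : i < m := (mem_range.1 hi).trans hj'
        have im : (i : ℝ) + 1 ≤ m := by exact_mod_cast hi'
        have u1 := sum_le_sum fun r (hr : r ∈ range i) =>
          r6 j hj' i hi' r ((mem_range.1 hr).trans hi')
        rw [sum_sub_distrib, sum_const, card_range, nsmul_eq_mul] at u1
        have u0 := mul_nonneg (hθ (i + 1)).1 (hθ (j + 1)).1
        have u2 := mul_le_mul_of_nonneg_left u1 u0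
        have u3 : θ (i + 1) * θ (j + 1) ≤ v ^ 2 := by
          nlinarith [(hθ (i + 1)).1, (hθ (i + 1)).2, (hθ (j + 1)).1, (hθ (j + 1)).2]
        have u4 : θ (i + 1) * θ (j + 1) * (i * η₂) ≤ v ^ 2 * (K * η₂) :=
          mul_le_mul u3 (mul_le_mul_of_nonneg_right (by linarith) η2) (by positivity) (sq_nonneg v)
        have u5 := r5 j hj' i hi'
        rw [E_add, E_mul, E_sum, sum_range_succ', hη]
        linarith
      have o2 := sum_le_sum o1
      rw [sum_sub_distrib, sum_sub_distrib, sum_const, sum_const, card_range, nsmul_eq_mul,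
        nsmul_eq_mul] at o2
      set G : ℝ := 1 + A * θ (j + 1) ^ 2 with hG
      have G1 : 1 ≤ G := le_add_of_nonneg_right (by positivity)
      have o3 := mul_le_mul_of_nonneg_left (r7 j hj') (by positivity : 0 ≤ C * (j + 1) * G ^ j)
      have q0 := hΨ _ (hQ (j + 1))
      have o4 : C * Ψ (Q (j + 1)) ≤ C * (G ^ (j + 1) * Ψ (Q (j + 1))) :=
        mul_le_mul_of_nonneg_left (le_mul_of_one_le_left q0 (one_le_pow₀ G1)) C0
      have o5 := r4 j hj'
      have o6 : (j + 1) * b ≤ K * b := mul_le_mul_of_nonneg_right (by linarith) b0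
      have o7 : j * η ≤ K * η := mul_le_mul_of_nonneg_right (by linarith) η0
      simp only [ht, term, odd]
      rw [E_add, E_sub, E_add, E_sum, E_const hP, sum_range_succ' _ j]
      simp only [E_add]
      rw [r3, ← hG, E_mul]
      simp only [E_add] at o2
      simp only [range_zero, sum_empty, mul_zero, add_zero]
      push_cast
      rw [pow_succ] at o4 ⊢
      linarith
    have e4 := sum_le_sum e3
    rw [sum_sub_distrib, sum_sub_distrib, sum_add_distrib, sum_const, sum_const, card_range,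
      nsmul_eq_mul, nsmul_eq_mul, ← mul_sum, ← E_sum] at e4
    change E (Q 0) _ ≤ _ at ha'
    rw [E_add] at ha'
    have e5 : C * (Ψ (Q 0) + ∑ i ∈ range m, Ψ (Q (i + 1))) = K * (K * b) := by
      rw [hC, hb]
      ring
    have K0 : (0 : ℝ) ≤ K := Nat.cast_nonneg K
    have e6 : m * (K * b) ≤ K * (K * b) := mul_le_mul_of_nonneg_right (by linarith) (by positivity)
    have e7 : m * (K * η) ≤ K * (K * η) := mul_le_mul_of_nonneg_right (by linarith) (by positivity)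
    have e8 : term W Ψ κ A C θ Q g 0 = E (Q 0) g - C * Ψ (Q 0) := by simp [term, odd]
    rw [sum_range_succ', e8]
    push_cast
    linarith

lemma odd_neg (θ : ℕ → ℝ) (Q : ℕ → V → ℝ) (j : ℕ) :
    odd (fun a b => -W a b) θ Q j = -odd W θ Q j := by
  have e1 : ∀ μ ν : V → ℝ, B (fun a b => -W a b) μ ν = -B W μ ν := fun μ ν => by
    simp only [B, E_neg]
  have e2 : ∀ μ ν κ : V → ℝ, T (fun a b => -W a b) μ ν κ = -T W μ ν κ := fun μ ν κ => by
    simp only [T, neg_mul, mul_neg, neg_neg, E_neg]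
  simp only [odd, e1, e2, sum_neg_distrib, mul_neg, ← neg_add]

end Pool.Agent.MP_dd175f_co.Tri
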