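import Pool.Agent.MP_dd175f_co.Tri.Ex

/-! One round: every later pool is tilted by the doubly centred row of the drawn vertex. -/

set_option autoImplicit false

namespace Pool.Agent.MP_dd175f_co.Tri

open Finset Pool.Agent.MP_dd175f_co.Pair

variable {V : Type} [Fintype V] {W : V → V → ℝ} {P Q Q₁ Q₂ Q₃ : V → ℝ} {γ : ℝ}

/-- The doubly centred kernel. -/
def cen (W : V → V → ℝ) (P Q : V → ℝ) (a z : V) : ℝ :=
  W a z - E P (W z) - (E Q (W a) - E P fun x => E Q (W x))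

/-- The bias between two pools. -/
def B (W : V → V → ℝ) (μ ν : V → ℝ) : ℝ := E μ fun a => E ν (W a)

/-- The signed triangle density of three pools. -/
def T (W : V → V → ℝ) (μ ν κ : V → ℝ) : ℝ :=
  E μ fun y => E ν fun z => E κ fun w => W y z * W y w * W z w

/-- The tilted pool. -/
def tl (W : V → V → ℝ) (P Q : V → ℝ) (θ : ℝ) (a z : V) : ℝ := Q z * (1 + θ * cen W P Q a z)

lemma E_tl (θ : ℝ) (a : V) (f : V → ℝ) :
    E (tl W P Q θ a) f = E Q fun z => (1 + θ * cen W P Q a z) * f z := E_tilt _ _ _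

lemma cen_abs (h1 : ∀ a b, |W a b| ≤ 1) (hP : IsProb P) (hQ : IsProb Q) (a z : V) :
    |cen W P Q a z| ≤ 4 := by
  have t1 := abs_le.1 (h1 a z)
  have t2 := abs_le.1 (abs_E_le hP (h1 z))
  have t3 := abs_le.1 (abs_E_le hQ (h1 a))
  have t4 := abs_le.1 (abs_E_le hP fun x => abs_E_le hQ (h1 x))
  unfold cen
  rw [abs_le]
  constructor <;> linarith

lemma cen_left (hs : ∀ a b, W a b = W b a) (hP : IsProb P) (z : V) :
    E P (fun a => cen W P Q a z) = 0 := by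
  unfold cen
  rw [E_sub, E_sub, E_sub, E_const hP, E_const hP, E_congr P fun a => hs a z]
  ring

lemma B_comm (hs : ∀ a b, W a b = W b a) (P Q : V → ℝ) :
    (E Q fun z => E P (W z)) = E P fun x => E Q (W x) := by
  rw [E_comm P Q W]
  exact E_congr _ fun z => E_congr _ fun x => hs z x

lemma cen_right (hs : ∀ a b, W a b = W b a) (hQ : IsProb Q) (a : V) :
    E Q (fun z => cen W P Q a z) = 0 := by
  unfold cen
  rw [E_sub, E_sub, E_const hQ, B_comm hs]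
  ring

lemma Sm.deg (h : Sm W P Q γ) : E Q (fun y => E P (W y) ^ 2) ≤ γ ^ 2 := by
  simpa only [mul_one] using h (fun _ => 1) (by simp)

lemma cen_sm (hs : ∀ a b, W a b = W b a) (hP : IsProb P) (hQ : IsProb Q) (h : Sm W P Q γ)
    {f : V → ℝ} (hf : ∀ a, |f a| ≤ 4) :
    E Q (fun y => (E P fun a => cen W P Q a y * f a) ^ 2) ≤ (8 * γ) ^ 2 := by
  have m1 := abs_le.1 (abs_E_le hP hf)
  have t := h.scale (f := fun a => f a - E P f) (C := 8) (by norm_num) fun a => by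
    have := abs_le.1 (hf a)
    rw [abs_le]
    constructor <;> linarith
  refine le_trans (le_of_eq (E_congr _ fun y => ?_)) ((var_le hQ _).trans t)
  congr 1
  have e1 : ∀ y, (E P fun x => W y x * (f x - E P f)) =
      (E P fun x => W x y * f x) - E P (W y) * E P f := fun y => by
    rw [← E_mul', ← E_sub]
    exact E_congr _ fun x => by rw [hs y x]; ring
  have e2 : (E Q fun y => E P fun x => W x y * f x) = E P fun x => E Q (W x) * f x := by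
    rw [E_comm]
    exact E_congr _ fun x => E_mul' _ _ _
  simp only [e1]
  rw [E_sub, e2, E_mul', B_comm hs]
  unfold cen
  simp only [sub_mul]
  rw [E_sub, E_sub, E_sub, E_mul, E_mul]

lemma tl_prob (hs : ∀ a b, W a b = W b a) (h1 : ∀ a b, |W a b| ≤ 1) (hP : IsProb P)
    (hQ : IsProb Q) {θ : ℝ} (θ0 : 0 ≤ θ) (θ1 : θ ≤ 1 / 8) (a : V) : IsProb (tl W P Q θ a) := by
  refine ⟨fun z => mul_nonneg (hQ.1 z) ?_, ?_⟩
  · nlinarith [(abs_le.1 (cen_abs h1 hP hQ a z)).1]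
  · change E Q (fun z => 1 + θ * cen W P Q a z) = 1
    rw [E_add, E_mul, E_const hQ, cen_right hs hQ]
    ring

lemma tl_mart (hs : ∀ a b, W a b = W b a) (hP : IsProb P) (θ : ℝ) (g : V → ℝ) :
    E P (fun a => E (tl W P Q θ a) g) = E Q g := by
  simp only [E_tl]
  rw [E_comm]
  refine E_congr _ fun z => ?_
  rw [E_mul', E_add, E_mul, E_const hP, cen_left hs hP]
  ring

lemma tl_gain (hs : ∀ a b, W a b = W b a) (h1 : ∀ a b, |W a b| = 1) (hQ : IsProb Q)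
    (hP : IsProb P) (s1 : Sm W P Q γ) (s2 : Sm W Q P γ) {θ : ℝ} (θ0 : 0 ≤ θ) :
    B W P Q + θ * (1 - 2 * γ ^ 2) ≤ E P fun a => E (tl W P Q θ a) (W a) := by
  have h2 : ∀ a b, W a b ^ 2 = 1 := fun a b => by rw [← sq_abs, h1, one_pow]
  set b : ℝ := E P fun x => E Q (W x) with hb
  have e1 : ∀ a z, (1 + θ * cen W P Q a z) * W a z =
      W a z + θ * (1 - W a z * E P (W z) - (E Q (W a) - b) * W a z) := fun a z => by
    unfold cen
    linear_combination θ * h2 a z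
  have e2 : (E P fun a => E Q fun z => W a z * E P (W z)) = E Q fun z => E P (W z) ^ 2 := by
    rw [E_comm]
    refine E_congr _ fun z => ?_
    rw [E_mul', E_congr P fun a => hs a z, sq]
  have e3 : (E P fun a => (E Q (W a) - b) * E Q (W a)) =
      (E P fun a => E Q (W a) ^ 2) - b ^ 2 := by
    simp only [sub_mul, ← sq]
    rw [E_sub, E_mul, ← hb, sq b]
  simp only [E_tl, e1, E_add, E_sub, E_mul, E_const hQ, E_const hP]
  rw [e2, e3]
  have := s1.deg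
  have := s2.deg
  have : 1 - 2 * γ ^ 2 ≤ 1 - (E Q fun z => E P (W z) ^ 2) -
      ((E P fun a => E Q (W a) ^ 2) - b ^ 2) := by nlinarith [sq_nonneg b]
  exact add_le_add le_rfl (mul_le_mul_of_nonneg_left this θ0)

lemma tl_psi (hs : ∀ a b, W a b = W b a) (h1 : ∀ a b, |W a b| = 1) (hP : IsProb P)
    (hQ : IsProb Q) (s2 : Sm W Q P γ) (γ0 : 0 < γ) (γ1 : γ ≤ 1) {θ v s : ℝ} (θ0 : 0 ≤ θ)
    (θ1 : θ ≤ v) (hv : v ≤ 1 / 8) (s0 : 0 ≤ s) (s1 : s ≤ 1) :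
    E P (fun a => Psi s (tl W P Q θ a)) ≤
      (1 + s * θ ^ 2 * ((1 / 2 + 16 * v + 6 * s) * (1 + 3 * γ))) * Psi s Q := by
  have h1' : ∀ a b, |W a b| ≤ 1 := fun a b => (h1 a b).le
  have h2 : ∀ a b, W a b ^ 2 = 1 := fun a b => by rw [← sq_abs, h1, one_pow]
  have d1 : ∀ a z, |θ * cen W P Q a z| ≤ 4 * v := fun a z => by
    rw [abs_mul, abs_of_nonneg θ0]
    nlinarith [cen_abs h1' hP hQ a z, abs_nonneg (cen W P Q a z)]
  set c : ℝ := s * (1 / 2 + 4 * (4 * v) + 6 * s) with hc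
  have c0 : 0 ≤ c := by
    have : 0 ≤ v := θ0.trans θ1
    positivity
  have e0 : ∀ z, E P (fun a => cen W P Q a z ^ 2) ≤ 1 + 3 * γ := fun z => by
    have t1 := var_le hP fun a => W a z - E Q (W a)
    have t2 : ∀ a, W a z - E Q (W a) - E P (fun a => W a z - E Q (W a)) = cen W P Q a z :=
      fun a => by
        rw [E_sub, E_congr P fun a => hs a z]
        unfold cen
        ring
    simp only [t2] at t1
    refine t1.trans (le_of_mul_le_mul_left ?_ γ0)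
    have t3 : ∀ a, γ * (W a z - E Q (W a)) ^ 2 ≤ γ + γ ^ 2 + 2 * E Q (W a) ^ 2 := fun a => by
      have u1 : 0 ≤ (1 - γ) * E Q (W a) ^ 2 := mul_nonneg (by linarith) (sq_nonneg _)
      have u2 := sq_nonneg (γ * W a z + E Q (W a))
      have u3 : γ * W a z ^ 2 = γ := by rw [h2, mul_one]
      have u4 : γ ^ 2 * W a z ^ 2 = γ ^ 2 := by rw [h2, mul_one]
      nlinarith
    rw [← E_mul]
    refine (E_mono hP t3).trans ?_
    rw [E_add, E_mul, E_const hP]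
    nlinarith [s2.deg]
  have e1 : ∀ a, Psi s (tl W P Q θ a) ≤ ∑ z, Q z ^ (1 + s) *
      (1 + (1 + s) * θ * cen W P Q a z + c * θ ^ 2 * cen W P Q a z ^ 2) := fun a => by
    refine sum_le_sum fun z _ => ?_
    unfold tl
    rw [Real.mul_rpow (hQ.1 z) (by linarith [(abs_le.1 (d1 a z)).1])]
    refine mul_le_mul_of_nonneg_left ((rpow_le s0 s1 (d1 a z) (by linarith)).trans_eq ?_)
      (Real.rpow_nonneg (hQ.1 z) _)
    ring
  refine (E_mono hP e1).trans ?_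
  rw [E_sum]
  unfold Psi
  rw [mul_sum]
  refine sum_le_sum fun z _ => ?_
  rw [E_mul, mul_comm]
  refine mul_le_mul_of_nonneg_right ?_ (Real.rpow_nonneg (hQ.1 z) _)
  rw [E_add, E_add, E_mul, E_mul, E_const hP, cen_left hs hP]
  have := mul_le_mul_of_nonneg_left (e0 z) (by positivity : 0 ≤ c * θ ^ 2)
  have e2 : s * θ ^ 2 * ((1 / 2 + 16 * v + 6 * s) * (1 + 3 * γ)) = c * θ ^ 2 * (1 + 3 * γ) := by
    rw [hc]; ring
  linarith

lemma tl_B (hs : ∀ a b, W a b = W b a) (h1 : ∀ a b, |W a b| ≤ 1) (hP : IsProb P)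
    (p1 : IsProb Q₁) (p2 : IsProb Q₂) (s01 : Sm W P Q₁ γ) (s02 : Sm W P Q₂ γ)
    (s10 : Sm W Q₁ P γ) (s20 : Sm W Q₂ P γ) (s12 : Sm W Q₁ Q₂ γ) (s21 : Sm W Q₂ Q₁ γ)
    {θ₁ θ₂ : ℝ} (t1 : 0 ≤ θ₁) (t2 : 0 ≤ θ₂) :
    B W Q₁ Q₂ + θ₁ * θ₂ * (T W P Q₁ Q₂ - 6 * γ ^ 2) ≤
      E P fun a => B W (tl W P Q₁ θ₁ a) (tl W P Q₂ θ₂ a) := by
  set ψ₁ := cen W P Q₁ with hψ₁
  set ψ₂ := cen W P Q₂ with hψ₂
  set β₁ : V → ℝ := fun a => E Q₁ (W a) - E P fun x => E Q₁ (W x) with hβ₁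
  set β₂ : V → ℝ := fun a => E Q₂ (W a) - E P fun x => E Q₂ (W x) with hβ₂
  have z1 : ∀ k : V → V → ℝ, (E P fun a => E Q₁ fun y => E Q₂ fun z => ψ₁ a y * k y z) = 0 :=
    fun k => by
      rw [E_comm]
      simp only [E_mul, E_mul', hψ₁, cen_left hs hP, zero_mul, E_const p1]
  have z2 : ∀ k : V → V → ℝ, (E P fun a => E Q₁ fun y => E Q₂ fun z => ψ₂ a z * k y z) = 0 :=
    fun k => by
      rw [E_comm, E_congr Q₁ fun y => E_comm P Q₂ _]
      simp only [E_mul', hψ₂, cen_left hs hP, zero_mul, E_const p1, E_const p2]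
  have e1 : ∀ a y z, (1 + θ₁ * ψ₁ a y) * ((1 + θ₂ * ψ₂ a z) * W y z) =
      W y z + θ₁ * (ψ₁ a y * W y z) + ψ₂ a z * (θ₂ * W y z - θ₁ * θ₂ * (E P (W y) * W y z)) +
        θ₁ * θ₂ * (W a y * W a z * W y z - β₁ a * ψ₂ a z * W y z - W a y * (W y z * E P (W z)) -
          β₂ a * W a y * W y z) := fun a y z => by
    simp only [hψ₁, hψ₂, hβ₁, hβ₂, cen]
    ring
  have e2 : (E P fun a => B W (tl W P Q₁ θ₁ a) (tl W P Q₂ θ₂ a)) =
      E P fun a => E Q₁ fun y => E Q₂ fun z => (1 + θ₁ * ψ₁ a y) * ((1 + θ₂ * ψ₂ a z) * W y z) := by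
    simp only [B, E_tl, E_mul, hψ₁, hψ₂]
  have b1 : (E P fun a => E Q₁ fun y => E Q₂ fun z => β₁ a * ψ₂ a z * W y z) ≤ 4 * γ ^ 2 := by
    refine le_trans (le_of_eq (E_congr _ fun a => ?_))
      (prod_ge hP p2 (cen_abs h1 hP p2) ((var_le hP _).trans s10.deg) s12.deg)
    rw [E_comm]
    exact E_congr _ fun z => by rw [E_mul, E_congr Q₁ fun y => hs y z]
  have b2 : (E P fun a => E Q₁ fun y => E Q₂ fun z => W a y * (W y z * E P (W z))) ≤
      1 * γ ^ 2 := by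
    refine le_trans (le_of_eq ?_) (prod_ge p1 p2 h1 s01.deg s02.deg)
    rw [E_comm]
    refine E_congr _ fun y => ?_
    simp only [E_mul, mul_assoc]
    rw [E_mul', E_congr P fun a => hs a y]
  have b3 : (E P fun a => E Q₁ fun y => E Q₂ fun z => β₂ a * W a y * W y z) ≤ 1 * γ ^ 2 := by
    refine le_trans (le_of_eq ?_) (prod_ge hP p1 h1 ((var_le hP _).trans s20.deg) s21.deg)
    simp only [E_mul, hβ₂]
  rw [e2]
  simp only [e1, E_add]
  rw [z2]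
  have e3 : ∀ (c : ℝ) (k : V → V → V → ℝ), (E P fun a => E Q₁ fun y => E Q₂ fun z => c * k a y z) =
      c * E P fun a => E Q₁ fun y => E Q₂ fun z => k a y z := fun c k => by simp only [E_mul]
  rw [e3, e3, z1, E_const hP]
  simp only [E_sub]
  have := mul_le_mul_of_nonneg_left (add_le_add (add_le_add b1 b2) b3) (mul_nonneg t1 t2)
  unfold B T
  linarith

lemma dia (hs : ∀ a b, W a b = W b a) (h1 : ∀ a b, |W a b| ≤ 1) (hP : IsProb P)
    (p1 : IsProb Q₁) (p2 : IsProb Q₂) (s01 : Sm W P Q₁ γ) (s31 : Sm W Q₃ Q₁ γ) :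
    -(33 * γ ^ 2) ≤ E Q₁ fun y => E Q₂ fun z => E Q₃ fun w =>
      (E P fun a => cen W P Q₁ a y * cen W P Q₂ a z) * (W y z * W y w * W z w) := by
  rw [E_comm]
  refine le_E p2 fun z => ?_
  have t1 := cen_sm hs hP p1 s01 (f := fun a => cen W P Q₂ a z) fun a => cen_abs h1 hP p2 a z
  have t2 := s31 (W z) (h1 z)
  have t3 : ∀ y, -(1 / 2) * (E P fun a => cen W P Q₁ a y * cen W P Q₂ a z) ^ 2 -
      1 / 2 * (E Q₃ fun w => W y w * W z w) ^ 2 ≤ E Q₃ fun w =>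
      (E P fun a => cen W P Q₁ a y * cen W P Q₂ a z) * (W y z * W y w * W z w) := fun y => by
    simp only [mul_assoc (W y z), E_mul]
    set c := E P fun a => cen W P Q₁ a y * cen W P Q₂ a z
    set d := E Q₃ fun w => W y w * W z w
    have u1 : W y z ^ 2 ≤ 1 := by
      rw [← sq_abs]
      nlinarith [h1 y z, abs_nonneg (W y z)]
    nlinarith [sq_nonneg (c + W y z * d), mul_le_mul_of_nonneg_right u1 (sq_nonneg d)]
  refine le_trans ?_ (E_mono p1 t3)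
  rw [E_sub, E_mul, E_mul]
  nlinarith [sq_nonneg γ]

lemma kfour (h1 : ∀ a b, |W a b| ≤ 1) (hP : IsProb P)
    (p1 : IsProb Q₁) (p2 : IsProb Q₂) (p3 : IsProb Q₃) (s31 : Sm W Q₃ Q₁ γ) (γ0 : 0 < γ) :
    -(64 * γ) ≤ E Q₁ fun y => E Q₂ fun z => E Q₃ fun w => E P fun a =>
      cen W P Q₁ a y * cen W P Q₂ a z * cen W P Q₃ a w * (W y z * W y w * W z w) := by
  rw [E_congr Q₁ fun y => E_congr Q₂ fun z => E_comm Q₃ P _, E_comm,
    E_congr Q₂ fun z => E_comm Q₁ P _]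
  refine le_E p2 fun z => le_E hP fun a => ?_
  have t1 := s31.scale (f := fun w => W z w * cen W P Q₃ a w) (C := 4) (by norm_num) fun w => by
    rw [abs_mul]
    nlinarith [h1 z w, cen_abs h1 hP p3 a w, abs_nonneg (W z w), abs_nonneg (cen W P Q₃ a w)]
  have t2 : ∀ y, -(2 * (E Q₃ fun w => W y w * (W z w * cen W P Q₃ a w)) ^ 2) - 32 * γ ^ 2 ≤
      γ * E Q₃ fun w => cen W P Q₁ a y * cen W P Q₂ a z * cen W P Q₃ a w *
        (W y z * W y w * W z w) := fun y => by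
    have u0 : (E Q₃ fun w => cen W P Q₁ a y * cen W P Q₂ a z * cen W P Q₃ a w *
        (W y z * W y w * W z w)) = cen W P Q₁ a y * cen W P Q₂ a z * W y z *
        E Q₃ fun w => W y w * (W z w * cen W P Q₃ a w) := by
      rw [← E_mul]
      exact E_congr _ fun w => by ring
    rw [u0]
    set d := E Q₃ fun w => W y w * (W z w * cen W P Q₃ a w)
    set c := cen W P Q₁ a y * cen W P Q₂ a z * W y z with hc
    have u1 : |c| ≤ 16 := by
      rw [hc, abs_mul, abs_mul]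
      have := mul_le_mul (cen_abs h1 hP p1 a y) (cen_abs h1 hP p2 a z) (abs_nonneg _) (by norm_num)
      nlinarith [h1 y z, abs_nonneg (W y z), mul_nonneg (abs_nonneg (cen W P Q₁ a y))
        (abs_nonneg (cen W P Q₂ a z))]
    have u2 : c ^ 2 ≤ 256 := by
      rw [← sq_abs]
      nlinarith [abs_nonneg c]
    nlinarith [sq_nonneg (4 * d + γ * c), mul_le_mul_of_nonneg_right u2 (sq_nonneg γ)]
  have t3 := E_mono p1 t2
  rw [E_sub, E_neg, E_mul, E_const p1, E_mul Q₁ _ γ] at t3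
  refine le_of_mul_le_mul_left (le_trans ?_ t3) γ0
  nlinarith

lemma tl_T (hs : ∀ a b, W a b = W b a) (h1 : ∀ a b, |W a b| ≤ 1) (hP : IsProb P)
    (p1 : IsProb Q₁) (p2 : IsProb Q₂) (p3 : IsProb Q₃) (s01 : Sm W P Q₁ γ) (s02 : Sm W P Q₂ γ)
    (s31 : Sm W Q₃ Q₁ γ) (s21 : Sm W Q₂ Q₁ γ) (s12 : Sm W Q₁ Q₂ γ) (γ0 : 0 < γ)
    {θ₁ θ₂ θ₃ v : ℝ} (t1 : 0 ≤ θ₁) (t2 : 0 ≤ θ₂) (t3 : 0 ≤ θ₃) (v1 : θ₁ ≤ v) (v2 : θ₂ ≤ v)
    (v3 : θ₃ ≤ v) :
    T W Q₁ Q₂ Q₃ - (99 * v ^ 2 * γ ^ 2 + 64 * v ^ 3 * γ) ≤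
      E P fun a => T W (tl W P Q₁ θ₁ a) (tl W P Q₂ θ₂ a) (tl W P Q₃ θ₃ a) := by
  set ψ₁ := cen W P Q₁ with hψ₁
  set ψ₂ := cen W P Q₂ with hψ₂
  set ψ₃ := cen W P Q₃ with hψ₃
  have e1 : (E P fun a => T W (tl W P Q₁ θ₁ a) (tl W P Q₂ θ₂ a) (tl W P Q₃ θ₃ a)) =
      E Q₁ fun y => E Q₂ fun z => E Q₃ fun w => E P fun a => (1 + θ₁ * ψ₁ a y) *
        ((1 + θ₂ * ψ₂ a z) * ((1 + θ₃ * ψ₃ a w) * (W y z * W y w * W z w))) := by
    rw [E_congr Q₁ fun y => E_congr Q₂ fun z => E_comm Q₃ P _, E_congr Q₁ fun y => E_comm Q₂ P _,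
      E_comm Q₁ P]
    simp only [T, E_tl, E_mul, hψ₁, hψ₂, hψ₃]
  have e2 : ∀ y z w, (E P fun a => (1 + θ₁ * ψ₁ a y) *
      ((1 + θ₂ * ψ₂ a z) * ((1 + θ₃ * ψ₃ a w) * (W y z * W y w * W z w)))) =
      W y z * W y w * W z w + θ₁ * θ₂ * ((E P fun a => ψ₁ a y * ψ₂ a z) * (W y z * W y w * W z w)) +
        θ₁ * θ₃ * ((E P fun a => ψ₁ a y * ψ₃ a w) * (W y w * W y z * W w z)) +
        θ₂ * θ₃ * ((E P fun a => ψ₂ a z * ψ₃ a w) * (W z w * W z y * W w y)) +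
        θ₁ * θ₂ * θ₃ * E P fun a => ψ₁ a y * ψ₂ a z * ψ₃ a w * (W y z * W y w * W z w) := by
    intro y z w
    rw [hs w z, hs z y, hs w y]
    set H := W y z * W y w * W z w with hH
    have u : ∀ a, (1 + θ₁ * ψ₁ a y) * ((1 + θ₂ * ψ₂ a z) * ((1 + θ₃ * ψ₃ a w) * H)) =
        H + θ₁ * H * ψ₁ a y + θ₂ * H * ψ₂ a z + θ₃ * H * ψ₃ a w +
          θ₁ * θ₂ * H * (ψ₁ a y * ψ₂ a z) + θ₁ * θ₃ * H * (ψ₁ a y * ψ₃ a w) +
          θ₂ * θ₃ * H * (ψ₂ a z * ψ₃ a w) + θ₁ * θ₂ * θ₃ * (ψ₁ a y * ψ₂ a z * ψ₃ a w * H) :=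
      fun a => by ring
    rw [E_congr P u]
    simp only [E_add, E_mul, E_const hP, hψ₁, hψ₂, hψ₃, cen_left hs hP]
    rw [hH]
    ring
  have e3 : ∀ (c : ℝ) (k : V → V → V → ℝ),
      (E Q₁ fun y => E Q₂ fun z => E Q₃ fun w => c * k y z w) =
      c * E Q₁ fun y => E Q₂ fun z => E Q₃ fun w => k y z w := fun c k => by simp only [E_mul]
  have d12 := dia hs h1 hP p1 p2 s01 s31
  have d13 := dia hs h1 hP p1 p3 s01 s21
  have d23 := dia hs h1 hP p2 p3 s02 s12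
  have d4 := kfour h1 hP p1 p2 p3 s31 γ0
  rw [E_congr Q₁ fun y => E_comm Q₃ Q₂ _] at d13
  rw [E_congr Q₂ fun y => E_comm Q₃ Q₁ _, E_comm Q₂ Q₁] at d23
  rw [e1]
  simp only [e2, E_add]
  rw [e3, e3, e3, e3]
  have v0 : 0 ≤ v := t1.trans v1
  have g0 : 0 ≤ 33 * γ ^ 2 := by positivity
  have m12 : θ₁ * θ₂ ≤ v ^ 2 := by nlinarith
  have m13 : θ₁ * θ₃ ≤ v ^ 2 := by nlinarith
  have m23 : θ₂ * θ₃ ≤ v ^ 2 := by nlinarith
  have m4 : θ₁ * θ₂ * θ₃ ≤ v ^ 3 := by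
    rw [pow_succ]
    exact mul_le_mul m12 v3 t3 (sq_nonneg v)
  have f12 := mul_le_mul_of_nonneg_left d12 (mul_nonneg t1 t2)
  have f13 := mul_le_mul_of_nonneg_left d13 (mul_nonneg t1 t3)
  have f23 := mul_le_mul_of_nonneg_left d23 (mul_nonneg t2 t3)
  have f4 := mul_le_mul_of_nonneg_left d4 (mul_nonneg (mul_nonneg t1 t2) t3)
  have k12 := mul_le_mul_of_nonneg_right m12 g0
  have k13 := mul_le_mul_of_nonneg_right m13 g0
  have k23 := mul_le_mul_of_nonneg_right m23 g0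
  have k4 := mul_le_mul_of_nonneg_right m4 (by positivity : 0 ≤ 64 * γ)
  unfold T
  linarith

end Pool.Agent.MP_dd175f_co.Tri
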